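import Pool.Agent.KS6_21.SZ.Main

/-!
# Finite double centralizers and unions of discrete subspaces: all cardinalities

The library has one group with finite double centralizers (of the cardinality of the continuum, a
group of class two with centre of order two) which is not `σ`-discrete in its semi-Zariski
topology. Here, for every prime `p` and all infinite cardinals `κ < ν ≤ 2 ^ κ` and `ν ≤ μ`, there is
such a group of cardinality `μ` which is not a union of fewer than `ν` discrete (or scattered, or
left-separated) subspaces; for `ν = μ` this is the largest possible number. So there are groups (or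
semigroups) with finite double centralizers of cardinality `μ` which are not `σ`-discrete if and
only if `μ` is uncountable.
-/

set_option autoImplicit false

namespace Pool.Agent.Results.MP_9d0418_gt.AllCardinalities

open Set Topology Cardinal Pool.Agent.KS6_21.SZ

universe u

/-- (1) For every prime `p` and all cardinals `κ`, `ν`, `μ` with `ℵ₀ ≤ κ < ν ≤ 2 ^ κ` and `ν ≤ μ`
there is a group `G` of cardinality `μ` with central commutators, in which the double centralizer of
every finite set `F` has at most `p ^ (|F| + 1)` elements, and which is not a union of fewer than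
`ν` thin (for instance discrete) subspaces of its semi-Zariski topology.
(2), (3) There is a group, or a semigroup, of cardinality `μ` with finite double centralizers which
is not `σ`-discrete in its semi-Zariski topology if and only if `μ` is uncountable. -/
theorem result :
    (∀ (p : ℕ), p.Prime → ∀ κ ν μ : Cardinal.{u}, ℵ₀ ≤ κ → κ < ν → ν ≤ 2 ^ κ → ν ≤ μ →
      ∃ (G : Type u) (_ : Group G), #G = μ ∧
        (∀ x y z : G, Commute (x * y * x⁻¹ * y⁻¹) z) ∧
        (∀ F : Set G, F.Finite → F.centralizer.centralizer.Finite ∧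
          F.centralizer.centralizer.ncard ≤ p ^ (F.ncard + 1)) ∧
        (∀ (J : Type u) (D : J → Set G), #J < ν → (∀ j, Thin (semiZariski G) (D j)) →
          (⋃ j, D j) ≠ Set.univ) ∧
        ∀ (J : Type u) (D : J → Set G), #J < ν →
          (∀ j, @DiscreteTopology (D j) (TopologicalSpace.induced Subtype.val (semiZariski G))) →
          (⋃ j, D j) ≠ Set.univ) ∧
    (∀ μ : Cardinal.{u}, (∃ (G : Type u) (_ : Group G), #G = μ ∧
      (∀ F : Set G, F.Finite → F.centralizer.centralizer.Finite) ∧
      ¬ SigmaDiscrete (semiZariski G)) ↔ ℵ₀ < μ) ∧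
    (∀ μ : Cardinal.{u}, (∃ (S : Type u) (_ : Semigroup S), #S = μ ∧
      (∀ F : Set S, F.Finite → F.centralizer.centralizer.Finite) ∧
      ¬ SigmaDiscrete (semiZariski S)) ↔ ℵ₀ < μ) := by
  have key : ∀ μ : Cardinal.{u}, ℵ₀ < μ → ∃ (G : Type u) (_ : Group G), #G = μ ∧
      (∀ F : Set G, F.Finite → F.centralizer.centralizer.Finite) ∧
      ¬ SigmaDiscrete (semiZariski G) := by
    intro μ hμ
    have : Fact (Nat.Prime 2) := ⟨Nat.prime_two⟩
    obtain ⟨G, i, h1, -, h2, h3⟩ := exists_group (p := 2) (κ := ℵ₀) (ν := Order.succ ℵ₀) (μ := μ)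
      le_rfl (Order.lt_succ _) (Order.succ_le_of_lt (Cardinal.cantor _)) (Order.succ_le_of_lt hμ)
    exact ⟨G, i, h1, fun F hF => (h2 F hF).1, not_sigma h3⟩
  refine ⟨fun p hp κ ν μ h1 h2 h3 h4 => ?_, fun μ => ⟨?_, key μ⟩, fun μ => ⟨?_, fun h => ?_⟩⟩
  · have : Fact p.Prime := ⟨hp⟩
    obtain ⟨G, i, h5, h6, h7, h8⟩ := exists_group (p := p) h1 h2 h3 h4
    exact ⟨G, i, h5, h6, h7, h8, fun J D hJ hD => h8 J D hJ fun j => thin_of_discrete _ _ (hD j)⟩
  · rintro ⟨G, i, rfl, -, h⟩
    by_contra hc
    have : Countable G := Cardinal.mk_le_aleph0_iff.1 (not_lt.1 hc)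
    exact h (sigma_of_countable _)
  · rintro ⟨G, i, rfl, -, h⟩
    by_contra hc
    have : Countable G := Cardinal.mk_le_aleph0_iff.1 (not_lt.1 hc)
    exact h (sigma_of_countable _)
  · obtain ⟨G, i, h1, h2, h3⟩ := key μ h
    exact ⟨G, inferInstance, h1, h2, h3⟩

end Pool.Agent.Results.MP_9d0418_gt.AllCardinalities
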